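import Pool.Agent.Helper90.QF.St

/-!
# Project QF (MP_04a253_al), module SUR: a nonzero constant vector field is surjective
-/

set_option autoImplicit false

namespace Pool.Agent.Helper64.QF

open Pool.Agent.Helper90.QF MvPolynomial

theorem SUR_mono {n : ℕ} (ξ : Fin n → ℂ) (i0 : Fin n) (hi0 : ξ i0 ≠ 0)
    (L : MvPolynomial (Fin n) ℂ →ₗ[ℂ] MvPolynomial (Fin n) ℂ)
    (hL : ∀ H, L H = ∑ i, ξ i • pderiv i H) :
    ∀ (N : ℕ) (s : Fin n →₀ ℕ), ∑ j ∈ Finset.univ.erase i0, s j ≤ N →
      (monomial s (1 : ℂ)) ∈ LinearMap.range L := by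
  intro N
  induction N with
  | zero =>
    intro s hs
    -- all other exponents vanish
    have hz : ∀ j, j ≠ i0 → s j = 0 := by
      intro j hj
      have h1 : s j ≤ ∑ j ∈ Finset.univ.erase i0, s j :=
        Finset.single_le_sum (f := fun j => s j) (fun _ _ => Nat.zero_le _)
          (Finset.mem_erase.2 ⟨hj, Finset.mem_univ j⟩)
      omega
    have h2 : L (monomial (s + Finsupp.single i0 1) (1 : ℂ)) =
        (ξ i0 * ((s i0 : ℂ) + 1)) • monomial s (1 : ℂ) := by
      rw [hL, Finset.sum_eq_single i0]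
      · rw [pderiv_monomial, smul_monomial, smul_monomial]
        simp
      · intro j _ hj
        rw [pderiv_monomial]
        have : (s + Finsupp.single i0 1 : Fin n →₀ ℕ) j = 0 := by
          rw [Finsupp.add_apply, hz j hj, Finsupp.single_eq_of_ne hj, add_zero]
        rw [this]
        simp
      · intro h
        exact absurd (Finset.mem_univ i0) h
    have h3 : ξ i0 * ((s i0 : ℂ) + 1) ≠ 0 := mul_ne_zero hi0 (Nat.cast_add_one_ne_zero _)
    have h4 : monomial s (1 : ℂ) =
        (ξ i0 * ((s i0 : ℂ) + 1))⁻¹ • L (monomial (s + Finsupp.single i0 1) (1 : ℂ)) := by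
      rw [h2, smul_smul, inv_mul_cancel₀ h3, one_smul]
    rw [h4]
    exact Submodule.smul_mem _ _ (LinearMap.mem_range_self _ _)
  | succ N ih =>
    intro s hs
    have h2 : L (monomial (s + Finsupp.single i0 1) (1 : ℂ)) =
        (ξ i0 * ((s i0 : ℂ) + 1)) • monomial s (1 : ℂ) + ∑ i ∈ Finset.univ.erase i0,
          ξ i • pderiv i (monomial (s + Finsupp.single i0 1) (1 : ℂ)) := by
      rw [hL, ← Finset.add_sum_erase _ _ (Finset.mem_univ i0)]
      congr 1
      rw [pderiv_monomial, smul_monomial, smul_monomial]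
      simp
    have h5 : ∑ i ∈ Finset.univ.erase i0,
          ξ i • pderiv i (monomial (s + Finsupp.single i0 1) (1 : ℂ)) ∈ LinearMap.range L := by
      refine Submodule.sum_mem _ fun i hi => Submodule.smul_mem _ _ ?_
      have hne : i ≠ i0 := (Finset.mem_erase.1 hi).1
      rw [pderiv_monomial]
      have e1 : (s + Finsupp.single i0 1 : Fin n →₀ ℕ) i = s i := by
        rw [Finsupp.add_apply, Finsupp.single_eq_of_ne hne, add_zero]
      rw [e1, one_mul]
      by_cases h0 : s i = 0
      · rw [h0]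
        simp
      · have e2 : monomial (s + Finsupp.single i0 1 - Finsupp.single i 1) ((s i : ℕ) : ℂ) =
            ((s i : ℕ) : ℂ) • monomial (s + Finsupp.single i0 1 - Finsupp.single i 1) (1 : ℂ) := by
          rw [smul_monomial, smul_eq_mul, mul_one]
        rw [e2]
        refine Submodule.smul_mem _ _ (ih _ ?_)
        have h6 : ∑ j ∈ Finset.univ.erase i0,
            (s + Finsupp.single i0 1 - Finsupp.single i 1 : Fin n →₀ ℕ) j <
            ∑ j ∈ Finset.univ.erase i0, s j := by
          refine Finset.sum_lt_sum (fun j hj => ?_) ⟨i, hi, ?_⟩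
          · have hj0 : j ≠ i0 := (Finset.mem_erase.1 hj).1
            rw [Finsupp.tsub_apply, Finsupp.add_apply, Finsupp.single_eq_of_ne hj0, add_zero]
            exact Nat.sub_le _ _
          · rw [Finsupp.tsub_apply, Finsupp.add_apply, Finsupp.single_eq_of_ne hne, add_zero,
              Finsupp.single_eq_same]
            omega
        omega
    have h3 : ξ i0 * ((s i0 : ℂ) + 1) ≠ 0 := mul_ne_zero hi0 (Nat.cast_add_one_ne_zero _)
    have h4 : monomial s (1 : ℂ) =
        (ξ i0 * ((s i0 : ℂ) + 1))⁻¹ • (L (monomial (s + Finsupp.single i0 1) (1 : ℂ)) -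
          ∑ i ∈ Finset.univ.erase i0,
            ξ i • pderiv i (monomial (s + Finsupp.single i0 1) (1 : ℂ))) := by
      rw [h2, add_sub_cancel_right, smul_smul, inv_mul_cancel₀ h3, one_smul]
    rw [h4]
    exact Submodule.smul_mem _ _ (Submodule.sub_mem _ (LinearMap.mem_range_self _ _) h5)

theorem hSUR : StSUR := by
  intro n ξ hξ h
  obtain ⟨i0, hi0⟩ := hξ
  obtain ⟨L, hL⟩ : ∃ L : MvPolynomial (Fin n) ℂ →ₗ[ℂ] MvPolynomial (Fin n) ℂ,
      ∀ H, L H = ∑ i, ξ i • pderiv i H := by
    refine ⟨∑ i, ξ i • (pderiv (R := ℂ) i).toLinearMap, fun H => ?_⟩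
    rw [LinearMap.sum_apply]
    rfl
  have hmem : h ∈ LinearMap.range L := by
    rw [h.as_sum]
    refine Submodule.sum_mem _ fun s _ => ?_
    have e : monomial s (coeff s h) = (coeff s h) • monomial s (1 : ℂ) := by
      rw [smul_monomial, smul_eq_mul, mul_one]
    rw [e]
    exact Submodule.smul_mem _ _ (SUR_mono ξ i0 hi0 L hL _ s le_rfl)
  obtain ⟨H, hH⟩ := hmem
  refine ⟨H, ?_⟩
  rw [← hH, hL]
  exact Finset.sum_congr rfl fun i _ => C_mul'

end Pool.Agent.Helper64.QF
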